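import Pool.Agent.Lib.MP_257afc_co.ZO.H23.Lift
import Pool.Agent.Lib.MP_257afc_co.ZO.H41.All

/-!
GEN: the theorem for all polytopes with many independent two-valued affine functionals.
-/

set_option autoImplicit false

namespace Pool.Agent.Lib.MP_257afc_co.ZO.H23

open Finset Module H87

/-- Points with affine 0/1 coordinates, whose affine hull in the coordinates has dimension at
least `N`, have a simplex face of dimension `k` or a cube face of dimension `l`. -/
def GenStatement : Prop := ∀ k l : ℕ, ∃ N : ℕ, ∀ (d m : ℕ)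
  (S : Finset (EuclideanSpace ℝ (Fin d))) (φ : EuclideanSpace ℝ (Fin d) →ᵃ[ℝ] (Fin m → ℝ)),
    (∀ x ∈ S, ∀ i, φ x i = 0 ∨ φ x i = 1) →
    N ≤ finrank ℝ (affineSpan ℝ (φ '' (S : Set (EuclideanSpace ℝ (Fin d))))).direction →
    (∃ F : Set (EuclideanSpace ℝ (Fin d)), F.Nonempty ∧
      IsExposed ℝ (convexHull ℝ (S : Set (EuclideanSpace ℝ (Fin d)))) F ∧
      Module.finrank ℝ (affineSpan ℝ F).direction = k ∧
      ∃ T : Finset (EuclideanSpace ℝ (Fin d)), T.card = k + 1 ∧
        AffineIndependent ℝ (fun x : T => (x : EuclideanSpace ℝ (Fin d))) ∧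
        F = convexHull ℝ (T : Set (EuclideanSpace ℝ (Fin d)))) ∨
    (∃ F : Set (EuclideanSpace ℝ (Fin d)), F.Nonempty ∧
      IsExposed ℝ (convexHull ℝ (S : Set (EuclideanSpace ℝ (Fin d)))) F ∧
      Module.finrank ℝ (affineSpan ℝ F).direction = l ∧
      (∃ Θ : (Fin l → ℝ) →ᵃ[ℝ] EuclideanSpace ℝ (Fin d), Function.Injective Θ ∧
        F = Θ '' convexHull ℝ ({x | ∀ i, x i = 0 ∨ x i = 1} : Set (Fin l → ℝ))) ∧
      ∃ e : F.extremePoints ℝ ≃ ({x | ∀ i, x i = 0 ∨ x i = 1} : Set (Fin l → ℝ)),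
        ∀ A : Set (F.extremePoints ℝ),
          (∃ G : Set (EuclideanSpace ℝ (Fin d)), IsExposed ℝ F G ∧
            Subtype.val '' A = G ∩ F.extremePoints ℝ) ↔
          ∃ H : Set (Fin l → ℝ),
            IsExposed ℝ (convexHull ℝ ({x | ∀ i, x i = 0 ∨ x i = 1} : Set (Fin l → ℝ))) H ∧
            Subtype.val '' (e '' A) = H ∩ {x | ∀ i, x i = 0 ∨ x i = 1})

/-- The faces of the 0/1-points give top sets. -/
theorem face_top {d m : ℕ} {φ : EuclideanSpace ℝ (Fin d) →ᵃ[ℝ] (Fin m → ℝ)}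
    {S : Finset (EuclideanSpace ℝ (Fin d))} {β : EuclideanSpace ℝ (Fin d) → Fin m → Bool}
    (hβ : ∀ x ∈ S, ∀ i, φ x i = bv (β x i))
    {G : Set (Fin m → Bool)} (hG : IsFace (β '' (S : Set (EuclideanSpace ℝ (Fin d)))) G) :
    ∃ (T : Finset (EuclideanSpace ℝ (Fin d))) (l : EuclideanSpace ℝ (Fin d) →ₗ[ℝ] ℝ) (c : ℝ),
      Top S T l c ∧ β '' (T : Set (EuclideanSpace ℝ (Fin d))) = G := by
  classical
  obtain ⟨⟨y0, hy0⟩, h, hh, hle, hiff⟩ := hG
  obtain ⟨f, b, hf⟩ := aff_pull φ hh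
  have hval : ∀ x ∈ S, h (β x) = f x + b := fun x hx => hf x (β x) (hβ x hx)
  have himg : β '' ((S.filter (fun x => β x ∈ G) : Finset (EuclideanSpace ℝ (Fin d))) :
      Set (EuclideanSpace ℝ (Fin d))) = G := by
    ext y
    constructor
    · rintro ⟨x, hx, rfl⟩
      have hx' : x ∈ S.filter (fun x => β x ∈ G) := by exact_mod_cast hx
      exact (Finset.mem_filter.1 hx').2
    · intro hy
      obtain ⟨⟨x, hx, rfl⟩, -⟩ := (hiff y).1 hy
      refine ⟨x, ?_, rfl⟩
      have : x ∈ S.filter (fun x => β x ∈ G) := Finset.mem_filter.2 ⟨by exact_mod_cast hx, hy⟩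
      exact_mod_cast this
  have hne : (S.filter (fun x => β x ∈ G)).Nonempty := by
    have := hy0
    rw [← himg] at this
    obtain ⟨x, hx, -⟩ := this
    exact ⟨x, by exact_mod_cast hx⟩
  refine ⟨S.filter (fun x => β x ∈ G), f.toLinearMap, -b,
    ⟨Finset.filter_subset _ _, hne, ?_, ?_⟩, himg⟩
  · intro z hz
    obtain ⟨hzS, hzG⟩ := Finset.mem_filter.1 hz
    have h1 := ((hiff _).1 hzG).2
    rw [hval z hzS] at h1
    change f z = -b
    linarith
  · intro z hzS hz
    have hzG : β z ∉ G := fun h => hz (Finset.mem_filter.2 ⟨hzS, h⟩)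
    have h1 : β z ∈ β '' (S : Set (EuclideanSpace ℝ (Fin d))) :=
      Set.mem_image_of_mem _ (by exact_mod_cast hzS)
    have h2 := hle _ h1
    have h3 : h (β z) ≠ 0 := fun h0 => hzG ((hiff _).2 ⟨h1, h0⟩)
    have h4 := lt_of_le_of_ne h2 h3
    rw [hval z hzS] at h4
    change f z < -b
    linarith

/-- An affine map which is injective on the affine span of `G` can be changed into an injective
one without changing the fact that it takes the values 0 and 1 on `G`. -/
theorem make_inj {d m : ℕ} (φ : EuclideanSpace ℝ (Fin d) →ᵃ[ℝ] (Fin m → ℝ))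
    (G : Finset (EuclideanSpace ℝ (Fin d))) (hG : G.Nonempty)
    (hinj : Set.InjOn φ (affineSpan ℝ (G : Set (EuclideanSpace ℝ (Fin d))) :
      Set (EuclideanSpace ℝ (Fin d))))
    (h01 : ∀ x ∈ G, ∀ i, φ x i = 0 ∨ φ x i = 1) :
    ∃ ψ : EuclideanSpace ℝ (Fin d) →ᵃ[ℝ] (Fin (m + d) → ℝ), Function.Injective ψ ∧
      ∀ x ∈ G, ∀ i, ψ x i = 0 ∨ ψ x i = 1 := by
  obtain ⟨g0, hg0⟩ := hG
  set U := affineSpan ℝ (G : Set (EuclideanSpace ℝ (Fin d))) with hU
  have hg0U : g0 ∈ U := subset_affineSpan ℝ _ (by exact_mod_cast hg0)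
  obtain ⟨g, hg⟩ := U.direction.subtype.exists_leftInverse_of_injective
    (LinearMap.ker_eq_bot.2 U.direction.injective_subtype)
  let P : EuclideanSpace ℝ (Fin d) →ₗ[ℝ] EuclideanSpace ℝ (Fin d) := U.direction.subtype ∘ₗ g
  have hP : ∀ v ∈ U.direction, P v = v := by
    intro v hv
    have := LinearMap.congr_fun hg ⟨v, hv⟩
    simp only [LinearMap.comp_apply, Submodule.subtype_apply, LinearMap.id_apply] at this
    change ((g v : U.direction) : EuclideanSpace ℝ (Fin d)) = v
    rw [this]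
  let ρ : EuclideanSpace ℝ (Fin d) →ᵃ[ℝ] EuclideanSpace ℝ (Fin d) :=
    { toFun := fun x => g0 + P (x - g0)
      linear := P
      map_vadd' := by
        intro x v
        simp only [vadd_eq_add]
        rw [add_sub_assoc, map_add]
        abel }
  have hρv : ∀ x, ρ x = g0 + P (x - g0) := fun _ => rfl
  have hρU : ∀ x, ρ x ∈ U := by
    intro x
    rw [hρv, add_comm]
    exact AffineSubspace.vadd_mem_of_mem_direction (g (x - g0)).2 hg0U
  have hρx : ∀ x ∈ U, ρ x = x := by
    intro x hx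
    have h := hP (x - g0) (AffineSubspace.vsub_mem_direction hx hg0U)
    rw [hρv, h]
    abel
  let ψ : EuclideanSpace ℝ (Fin d) →ᵃ[ℝ] (Fin (m + d) → ℝ) :=
    { toFun := fun x => Fin.addCases (fun i => φ (ρ x) i) (fun j => (x - ρ x) j)
      linear := LinearMap.pi (fun i => Fin.addCases
        (fun i => LinearMap.proj i ∘ₗ (φ.comp ρ).linear)
        (fun j => (EuclideanSpace.proj j : EuclideanSpace ℝ (Fin d) →L[ℝ] ℝ).toLinearMap ∘ₗ
          (LinearMap.id - P)) i)
      map_vadd' := by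
        intro x v
        funext i
        refine Fin.addCases (fun i => ?_) (fun j => ?_) i
        · simp only [Fin.addCases_left, vadd_eq_add, Pi.add_apply, LinearMap.pi_apply,
            LinearMap.comp_apply, LinearMap.proj_apply]
          have h1 : φ (ρ (v + x)) = (φ.comp ρ).linear v + φ (ρ x) := by
            have := (φ.comp ρ).map_vadd x v
            simpa using this
          rw [h1]; rfl
        · simp only [Fin.addCases_right, vadd_eq_add, Pi.add_apply, LinearMap.pi_apply]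
          have h1 : ρ (v + x) = P v + ρ x := by
            rw [hρv, hρv, add_sub_assoc, map_add]; abel
          rw [h1]
          simp only [LinearMap.comp_apply, LinearMap.sub_apply, LinearMap.id_apply]
          change (v + x - (P v + ρ x)) j = (v - P v) j + (x - ρ x) j
          simp only [PiLp.sub_apply, PiLp.add_apply]
          ring }
  have hψ1 : ∀ x i, ψ x (Fin.castAdd d i) = φ (ρ x) i := by
    intro x i
    exact Fin.addCases_left (motive := fun _ => ℝ) i
  have hψ2 : ∀ x j, ψ x (Fin.natAdd m j) = (x - ρ x) j := by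
    intro x j
    exact Fin.addCases_right (motive := fun _ => ℝ) j
  refine ⟨ψ, ?_, ?_⟩
  · intro x y hxy
    have h1 : φ (ρ x) = φ (ρ y) := by
      funext i
      rw [← hψ1, ← hψ1, hxy]
    have h2 : x - ρ x = y - ρ y := by
      ext j
      rw [← hψ2, ← hψ2, hxy]
    have h3 : ρ x = ρ y := hinj (hρU x) (hρU y) h1
    rw [h3] at h2
    exact sub_left_injective h2
  · intro x hx i
    have hxU : x ∈ U := subset_affineSpan ℝ _ (by exact_mod_cast hx)
    refine Fin.addCases (fun i => ?_) (fun j => ?_) i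
    · rw [hψ1, hρx x hxU]
      exact h01 x hx i
    · left
      rw [hψ2, hρx x hxU, sub_self]
      rfl

theorem gen (hcore : CoreStatement) : GenStatement := by
  classical
  intro k l
  obtain ⟨N, hN⟩ := hcore k l
  refine ⟨N + 1, ?_⟩
  intro d m S φ0 h01 hdim
  have hS : S.Nonempty := by
    rw [Finset.nonempty_iff_ne_empty]
    rintro rfl
    rw [Finset.coe_empty, Set.image_empty, AffineSubspace.span_empty, AffineSubspace.direction_bot,
      finrank_bot] at hdim
    omega
  obtain ⟨G0, l0, m0, hTop, hspan, hinj0⟩ := lift S hS φ0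
  -- the number of points
  have hcardG : N ≤ G0.card := by
    rw [← hspan, direction_affineSpan] at hdim
    rcases Nat.eq_zero_or_pos G0.card with h | h
    · have := hTop.2.1.card_pos
      omega
    · obtain ⟨n, hn⟩ := Nat.exists_eq_succ_of_ne_zero h.ne'
      have h1 := finrank_vectorSpan_image_finset_le ℝ φ0 G0 hn
      rw [Finset.coe_image] at h1
      omega
  obtain ⟨φ, hφ, h01'⟩ := make_inj φ0 G0 hTop.2.1 hinj0 (fun x hx => h01 x (hTop.1 hx))
  have hβ : ∀ x ∈ G0, ∀ i, φ x i = bv ((fun x i => decide (φ x i = 1) :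
      EuclideanSpace ℝ (Fin d) → Fin (m + d) → Bool) x i) := fun x hx i => bv_decide (h01' x hx i)
  generalize (fun x i => decide (φ x i = 1) :
      EuclideanSpace ℝ (Fin d) → Fin (m + d) → Bool) = β at hβ
  have hinj : ∀ x ∈ G0, ∀ y ∈ G0, β x = β y → x = y := by
    intro x hx y hy h
    apply hφ
    funext i
    rw [hβ x hx, hβ y hy, h]
  have hcard : N ≤ (β '' (G0 : Set (EuclideanSpace ℝ (Fin d)))).ncard := by
    rw [Set.InjOn.ncard_image (fun x hx y hy h => hinj x (by exact_mod_cast hx) y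
      (by exact_mod_cast hy) h), Set.ncard_coe_finset]
    exact hcardG
  rcases hN (Fin (m + d)) _ hcard with ⟨G, hG, hGS⟩ | ⟨G, hG, hGC⟩
  · left
    obtain ⟨T, lT, cT, hTT, hTG⟩ := face_top hβ hG
    obtain ⟨h1, h2⟩ := simplex_concl (fun x hx => hβ x (hTT.1 hx))
      (fun x hx y hy => hinj x (hTT.1 hx) y (hTT.1 hy)) hTG hGS
    obtain ⟨l'', m'', hT''⟩ := hTop.trans hTT
    exact ⟨_, (by exact_mod_cast hTT.2.1 :
      (T : Set (EuclideanSpace ℝ (Fin d))).Nonempty).convexHull, hT''.exposed, h1, h2⟩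
  · right
    obtain ⟨T, lT, cT, hTT, hTG⟩ := face_top hβ hG
    obtain ⟨Θ, Ψ, hΨ, hF⟩ := cube_case hφ (fun x hx => hβ x (hTT.1 hx))
      (fun x hx y hy => hinj x (hTT.1 hx) y (hTT.1 hy)) hTG hGC
    obtain ⟨h1, h2⟩ := cube_concl Θ Ψ hΨ _ hF
    obtain ⟨l'', m'', hT''⟩ := hTop.trans hTT
    exact ⟨_, (by exact_mod_cast hTT.2.1 :
      (T : Set (EuclideanSpace ℝ (Fin d))).Nonempty).convexHull, hT''.exposed, h1,
      ⟨Θ, theta_inj Θ Ψ hΨ, hF⟩, h2⟩

/-- The general theorem. -/
theorem general : GenStatement := gen core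

end Pool.Agent.Lib.MP_257afc_co.ZO.H23
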