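import Pool.Agent.Lib.MP_257afc_co.Hull

/-!
LIFT: for a finite set `S` and an affine map `φ` there is a face `G` of `S` on whose affine span
`φ` is injective, and whose image has the same affine span as the image of `S`.
-/

set_option autoImplicit false

namespace Pool.Agent.Lib.MP_257afc_co.ZO.H23

open Finset Module

variable {E W : Type*} [NormedAddCommGroup E] [NormedSpace ℝ E] [FiniteDimensional ℝ E]
  [NormedAddCommGroup W] [NormedSpace ℝ W] [FiniteDimensional ℝ W]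

/-- `G` is the set of the points of `S` at which `l` has its largest value `m`. -/
def Top (S G : Finset E) (l : E →ₗ[ℝ] ℝ) (m : ℝ) : Prop :=
  G ⊆ S ∧ G.Nonempty ∧ (∀ z ∈ G, l z = m) ∧ ∀ z ∈ S, z ∉ G → l z < m

/-- The set of the points at which a functional is maximal. -/
theorem exists_top (S : Finset E) (hS : S.Nonempty) (l : E →ₗ[ℝ] ℝ) :
    ∃ G m, Top S G l m := by
  classical
  obtain ⟨z0, hz0, hmax⟩ := Finset.exists_max_image S l hS
  refine ⟨S.filter (fun z => l z = l z0), l z0, Finset.filter_subset _ _, ⟨z0, by simp [hz0]⟩,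
    fun z hz => (Finset.mem_filter.1 hz).2, fun z hz hzG => ?_⟩
  refine lt_of_le_of_ne (hmax z hz) fun h => hzG (Finset.mem_filter.2 ⟨hz, h⟩)

omit [FiniteDimensional ℝ E] [FiniteDimensional ℝ W] in
/-- Faces of faces. -/
theorem Top.trans {S G T : Finset E} {l l' : E →ₗ[ℝ] ℝ} {m m' : ℝ}
    (h : Top S G l m) (h' : Top G T l' m') : ∃ (l'' : E →ₗ[ℝ] ℝ) (m'' : ℝ), Top S T l'' m'' := by
  classical
  obtain ⟨hGS, hGne, hG1, hG2⟩ := h
  obtain ⟨hTG, hTne, hT1, hT2⟩ := h'
  -- a constant with `l' z - m' < M (m - l z)` for the points outside of `G`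
  have hM : ∃ M : ℝ, 0 < M ∧ ∀ z ∈ S, z ∉ G → l' z - m' < M * (m - l z) := by
    by_cases hne : (S \ G).Nonempty
    · obtain ⟨a, ha, hamax⟩ := Finset.exists_max_image (S \ G) (fun z => (l' z - m') / (m - l z)) hne
      refine ⟨max 1 ((l' a - m') / (m - l a) + 1), lt_of_lt_of_le one_pos (le_max_left _ _),
        fun z hz hzG => ?_⟩
      have hpos : 0 < m - l z := sub_pos.2 (hG2 z hz hzG)
      have h1 := hamax z (Finset.mem_sdiff.2 ⟨hz, hzG⟩)
      have h2 : (l' z - m') / (m - l z) < max 1 ((l' a - m') / (m - l a) + 1) :=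
        lt_of_le_of_lt h1 (lt_of_lt_of_le (lt_add_one _) (le_max_right _ _))
      rwa [div_lt_iff₀ hpos] at h2
    · refine ⟨1, one_pos, fun z hz hzG => ?_⟩
      exact absurd ⟨z, Finset.mem_sdiff.2 ⟨hz, hzG⟩⟩ hne
  obtain ⟨M, hM0, hM⟩ := hM
  refine ⟨M • l + l', M * m + m', hTG.trans hGS, hTne, fun z hz => ?_, fun z hz hzT => ?_⟩
  · simp only [LinearMap.add_apply, LinearMap.smul_apply, smul_eq_mul]
    rw [hG1 z (hTG hz), hT1 z hz]
  · simp only [LinearMap.add_apply, LinearMap.smul_apply, smul_eq_mul]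
    by_cases hzG : z ∈ G
    · rw [hG1 z hzG]
      have := hT2 z hzG hzT
      linarith
    · have := hM z hz hzG
      nlinarith

omit [FiniteDimensional ℝ E] in
/-- The tilting step. -/
theorem tight (G : Finset E) (hG : G.Nonempty) (φ : E →ᵃ[ℝ] W) (c : E →ₗ[ℝ] ℝ) :
    ∃ (ξ : W →ₗ[ℝ] ℝ) (G' : Finset E) (m : ℝ), Top G G' (c + ξ ∘ₗ φ.linear) m ∧
      affineSpan ℝ (φ '' (G' : Set E)) = affineSpan ℝ (φ '' (G : Set E)) := by
  classical
  -- dimension of the image of the top face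
  let P : ℕ → Prop := fun r => ∃ (ξ : W →ₗ[ℝ] ℝ) (G' : Finset E) (m : ℝ),
    Top G G' (c + ξ ∘ₗ φ.linear) m ∧
      r = finrank ℝ (affineSpan ℝ (φ '' (G' : Set E))).direction
  have hP0 : ∃ r, P r := by
    have : ∃ G' m, Top G G' (c + (0 : W →ₗ[ℝ] ℝ) ∘ₗ φ.linear) m := by
      obtain ⟨z0, hz0, hmax⟩ := Finset.exists_max_image G (c + (0 : W →ₗ[ℝ] ℝ) ∘ₗ φ.linear) hG
      refine ⟨G.filter (fun z => (c + (0 : W →ₗ[ℝ] ℝ) ∘ₗ φ.linear) z =
        (c + (0 : W →ₗ[ℝ] ℝ) ∘ₗ φ.linear) z0), _, Finset.filter_subset _ _, ⟨z0, by simp [hz0]⟩,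
        fun z hz => (Finset.mem_filter.1 hz).2, fun z hz hzG => ?_⟩
      refine lt_of_le_of_ne (hmax z hz) fun h => hzG (Finset.mem_filter.2 ⟨hz, h⟩)
    obtain ⟨G', m, h⟩ := this
    exact ⟨_, 0, G', m, h, rfl⟩
  have hbdd : ∀ r, P r → r ≤ finrank ℝ W := by
    rintro r ⟨ξ, G', m, -, rfl⟩
    exact Submodule.finrank_le _
  obtain ⟨r, hr, hrmax⟩ : ∃ r, P r ∧ ∀ r', P r' → r' ≤ r := by
    obtain ⟨r0, hr0⟩ := hP0
    have := Nat.findGreatest_spec (P := P) (hbdd r0 hr0) hr0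
    exact ⟨_, this, fun r' hr' => Nat.le_findGreatest (hbdd r' hr') hr'⟩
  obtain ⟨ξ, G', m, hTop, hrk⟩ := hr
  refine ⟨ξ, G', m, hTop, ?_⟩
  by_contra hne
  obtain ⟨hG'G, hG'ne, h1, h2⟩ := hTop
  have hsub : φ '' (G' : Set E) ⊆ φ '' (G : Set E) :=
    Set.image_mono (by exact_mod_cast hG'G)
  -- a point outside of the span
  have hg : ∃ g ∈ G, φ g ∉ affineSpan ℝ (φ '' (G' : Set E)) := by
    by_contra hcon
    push Not at hcon
    apply hne
    refine le_antisymm (affineSpan_mono ℝ hsub) ?_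
    rw [affineSpan_le]
    rintro _ ⟨g, hg, rfl⟩
    exact hcon g (by exact_mod_cast hg)
  obtain ⟨g, hgG, hgA⟩ := hg
  obtain ⟨z0, hz0⟩ := hG'ne
  have hz0A : φ z0 ∈ affineSpan ℝ (φ '' (G' : Set E)) :=
    subset_affineSpan ℝ _ ⟨z0, by exact_mod_cast hz0, rfl⟩
  have hv : φ g - φ z0 ∉ (affineSpan ℝ (φ '' (G' : Set E))).direction := by
    intro h
    apply hgA
    have := AffineSubspace.vadd_mem_of_mem_direction h hz0A
    simpa using this
  obtain ⟨δ0, hδ0, hδ0'⟩ := Submodule.exists_le_ker_of_notMem hv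
  -- choose the sign of the functional
  obtain ⟨δ, hδ, hδ'⟩ : ∃ δ : W →ₗ[ℝ] ℝ, 0 < δ (φ g - φ z0) ∧
      (affineSpan ℝ (φ '' (G' : Set E))).direction ≤ LinearMap.ker δ := by
    rcases lt_or_gt_of_ne hδ0 with h | h
    · refine ⟨-δ0, by simpa using h, fun x hx => ?_⟩
      have := hδ0' hx
      rw [LinearMap.mem_ker] at this ⊢
      simp [this]
    · exact ⟨δ0, h, hδ0'⟩
  have hlin : ∀ x y : E, φ.linear x - φ.linear y = φ x - φ y := by
    intro x y
    have := φ.linearMap_vsub x y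
    simpa using this
  have hs0 : ∀ z ∈ G', δ (φ z) = δ (φ z0) := by
    intro z hz
    have hzA : φ z ∈ affineSpan ℝ (φ '' (G' : Set E)) :=
      subset_affineSpan ℝ _ ⟨z, by exact_mod_cast hz, rfl⟩
    have := hδ' (AffineSubspace.vsub_mem_direction hzA hz0A)
    rw [LinearMap.mem_ker] at this
    simp only [vsub_eq_sub, map_sub] at this
    linarith
  -- gap and slope
  let gap : E → ℝ := fun z => m - (c + ξ ∘ₗ φ.linear) z
  let slope : E → ℝ := fun z => δ (φ z) - δ (φ z0)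
  have hgap0 : ∀ z ∈ G', gap z = 0 := fun z hz => by simp only [gap]; rw [h1 z hz]; ring
  have hgap : ∀ z ∈ G, z ∉ G' → 0 < gap z := fun z hz hz' => sub_pos.2 (h2 z hz hz')
  have hgapnn : ∀ z ∈ G, 0 ≤ gap z := fun z hz => by
    by_cases h : z ∈ G'
    · exact (hgap0 z h).ge
    · exact (hgap z hz h).le
  have hslope0 : ∀ z ∈ G', slope z = 0 := fun z hz => by simp only [slope]; rw [hs0 z hz]; ring
  have hslopeg : 0 < slope g := by
    simp only [slope]
    rw [map_sub] at hδ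
    exact hδ
  obtain ⟨a, ha, hamin⟩ := Finset.exists_min_image (G.filter fun z => 0 < slope z)
    (fun z => gap z / slope z) ⟨g, Finset.mem_filter.2 ⟨hgG, hslopeg⟩⟩
  obtain ⟨haG, has⟩ := Finset.mem_filter.1 ha
  set τ : ℝ := gap a / slope a with hτ
  have hτ0 : 0 ≤ τ := div_nonneg (hgapnn a haG) has.le
  -- the value of the tilted functional
  have hval : ∀ z, (c + (ξ + τ • δ) ∘ₗ φ.linear) z =
      (m + τ * δ (φ.linear z0)) - (gap z - τ * slope z) := by
    intro z
    have e := hlin z z0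
    have e2 : δ (φ.linear z) - δ (φ.linear z0) = slope z := by
      simp only [slope]
      rw [← map_sub, e, map_sub]
    simp only [LinearMap.add_apply, LinearMap.comp_apply, LinearMap.smul_apply, smul_eq_mul, gap]
    have e3 : δ (φ.linear z) = δ (φ.linear z0) + slope z := by linarith
    rw [e3]
    ring
  have hle : ∀ z ∈ G, 0 ≤ gap z - τ * slope z := by
    intro z hz
    by_cases hs : 0 < slope z
    · have := hamin z (Finset.mem_filter.2 ⟨hz, hs⟩)
      have h3 : τ ≤ gap z / slope z := this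
      rw [le_div_iff₀ hs] at h3
      linarith
    · have h3 : τ * slope z ≤ 0 := mul_nonpos_of_nonneg_of_nonpos hτ0 (not_lt.1 hs)
      have := hgapnn z hz
      linarith
  have ha0 : gap a - τ * slope a = 0 := by
    rw [hτ, div_mul_cancel₀ _ has.ne', sub_self]
  let G'' : Finset E := G.filter (fun z => gap z - τ * slope z = 0)
  have hTop'' : Top G G'' (c + (ξ + τ • δ) ∘ₗ φ.linear) (m + τ * δ (φ.linear z0)) := by
    refine ⟨Finset.filter_subset _ _, ⟨a, Finset.mem_filter.2 ⟨haG, ha0⟩⟩, fun z hz => ?_,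
      fun z hz hz' => ?_⟩
    · rw [hval, (Finset.mem_filter.1 hz).2, sub_zero]
    · rw [hval]
      have h3 : gap z - τ * slope z ≠ 0 := fun h => hz' (Finset.mem_filter.2 ⟨hz, h⟩)
      have h4 := lt_of_le_of_ne (hle z hz) (Ne.symm h3)
      linarith
  have hG'G'' : G' ⊆ G'' := by
    intro z hz
    refine Finset.mem_filter.2 ⟨hG'G hz, ?_⟩
    rw [hgap0 z hz, hslope0 z hz]
    ring
  have haG'' : a ∈ G'' := Finset.mem_filter.2 ⟨haG, ha0⟩
  have hlt : affineSpan ℝ (φ '' (G' : Set E)) < affineSpan ℝ (φ '' (G'' : Set E)) := by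
    refine lt_of_le_of_ne (affineSpan_mono ℝ (Set.image_mono (by exact_mod_cast hG'G''))) ?_
    intro heq
    have h3 : φ a ∈ affineSpan ℝ (φ '' (G' : Set E)) := by
      rw [heq]
      exact subset_affineSpan ℝ _ ⟨a, by exact_mod_cast haG'', rfl⟩
    have := hδ' (AffineSubspace.vsub_mem_direction h3 hz0A)
    rw [LinearMap.mem_ker] at this
    simp only [vsub_eq_sub, map_sub] at this
    simp only [slope] at has
    linarith
  have hdir := AffineSubspace.direction_lt_of_nonempty hlt ⟨φ z0, hz0A⟩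
  have hfin := Submodule.finrank_lt_finrank_of_lt hdir
  have := hrmax _ ⟨ξ + τ • δ, G'', _, hTop'', rfl⟩
  omega

/-- LIFT. -/
theorem lift (S : Finset E) (hS : S.Nonempty) (φ : E →ᵃ[ℝ] W) :
    ∃ (G : Finset E) (l : E →ₗ[ℝ] ℝ) (m : ℝ), Top S G l m ∧
      affineSpan ℝ (φ '' (G : Set E)) = affineSpan ℝ (φ '' (S : Set E)) ∧
      Set.InjOn φ (affineSpan ℝ (G : Set E) : Set E) := by
  classical
  let P : ℕ → Prop := fun n => ∃ (G : Finset E) (l : E →ₗ[ℝ] ℝ) (m : ℝ), G.card = n ∧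
    Top S G l m ∧ affineSpan ℝ (φ '' (G : Set E)) = affineSpan ℝ (φ '' (S : Set E))
  have hP : ∃ n, P n := by
    refine ⟨S.card, S, 0, 0, rfl, ⟨subset_rfl, hS, fun z _ => rfl, fun z hz hz' => absurd hz hz'⟩,
      rfl⟩
  obtain ⟨G, l, m, hcard, hTop, hspan⟩ := Nat.find_spec hP
  refine ⟨G, l, m, hTop, hspan, ?_⟩
  by_contra hinj
  rw [Set.InjOn] at hinj
  push Not at hinj
  obtain ⟨x, hx, y, hy, hxy, hne⟩ := hinj
  have hv0 : x - y ≠ 0 := sub_ne_zero.2 hne
  have hφv : φ.linear (x - y) = 0 := by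
    have := φ.linearMap_vsub x y
    simp only [vsub_eq_sub] at this
    rw [this, hxy, sub_self]
  have hvdir : x - y ∈ (affineSpan ℝ (G : Set E)).direction :=
    AffineSubspace.vsub_mem_direction hx hy
  obtain ⟨c, hc⟩ : ∃ c : E →ₗ[ℝ] ℝ, c (x - y) ≠ 0 := by
    by_contra hcon
    push Not at hcon
    exact hv0 ((Module.forall_dual_apply_eq_zero_iff ℝ (x - y)).1 hcon)
  obtain ⟨ξ, G', m', hTop', hspan'⟩ := tight G hTop.2.1 φ c
  have hlt : G'.card < G.card := by
    apply Finset.card_lt_card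
    refine Finset.ssubset_iff_subset_ne.2 ⟨hTop'.1, ?_⟩
    intro heq
    subst heq
    -- the functional is constant on `G`, hence vanishes on `x - y`
    have hconst : (affineSpan ℝ (G' : Set E)).direction ≤
        LinearMap.ker (c + ξ ∘ₗ φ.linear) := by
      rw [direction_affineSpan, vectorSpan_def, Submodule.span_le]
      rintro _ ⟨a, ha, b, hb, rfl⟩
      have h1 := hTop'.2.2.1 a (by exact_mod_cast ha)
      have h2 := hTop'.2.2.1 b (by exact_mod_cast hb)
      rw [SetLike.mem_coe, LinearMap.mem_ker]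
      simp only [vsub_eq_sub]
      rw [map_sub, h1, h2, sub_self]
    have := hconst hvdir
    rw [LinearMap.mem_ker] at this
    simp only [LinearMap.add_apply, LinearMap.comp_apply, hφv, map_zero, add_zero] at this
    exact hc this
  obtain ⟨l'', m'', hT''⟩ := hTop.trans hTop'
  have := Nat.find_min' hP ⟨G', l'', m'', rfl, hT'', hspan'.trans hspan⟩
  omega

/-- The hull of a top set is an exposed face. -/
theorem Top.exposed {S G : Finset E} {l : E →ₗ[ℝ] ℝ} {m : ℝ} (h : Top S G l m) :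
    IsExposed ℝ (convexHull ℝ (S : Set E)) (convexHull ℝ (G : Set E)) := by
  refine exposed_hull (LinearMap.toContinuousLinearMap l) m h.1 ?_ ?_ h.2.1
  · intro z hz
    exact h.2.2.1 z hz
  · intro z hz hz'
    exact h.2.2.2 z hz hz'

end Pool.Agent.Lib.MP_257afc_co.ZO.H23
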